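import Pool.Agent.Q270.ED.Cst
import Pool.Agent.Q270.EA.Rnd
import Pool.Agent.Q270.EB.FurF

/-!
# Zero-entropy automorphisms of C*-algebras and multiplicative functions: arbitrary companions, in norm

Let `f` be a 1-bounded multiplicative function. `Disj f T x` is the assertion: for all `k ≥ 0`, all distinct
integers `h_0, ..., h_k` and `ε > 0` the mean over the scales `N ≤ M`, with the weights `1/N`, of

  `‖(1/N) ∑_{n ≤ N} f(n + h_0) g_1(n + h_1) ⋯ g_k(n + h_k) T^n x‖`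

is at most `ε` for all large `M`, uniformly in ALL 1-bounded multiplicative functions `g_1, ..., g_k`. (For `k = 0`
and all states `ρ` it contains, at almost all scales, `(1/N) ∑_{n ≤ N} f(n) ρ(α^n(a)) → 0`, also if `ρ` depends on `N`.)

1. For EVERY 1-bounded multiplicative `f` the following are equivalent:
   (a) all correlations `∏ f(n + h_i) ∏ conj f(n + h'_j)`, at distinct shifts, vanish at almost all scales
       (for the Moebius or the Liouville function: Chowla's conjecture at almost all scales);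
   (b) `Disj f α a` for all C*-algebras, all `*`-endomorphisms `α` of zero entropy and all elements `a`;
   (c) `Disj f T x` for all linear contractions `T` of normed spaces and all vectors `x` with a slow orbit.
2. (b) and (c) hold for all tame functions: `f(n) = χ(n) n^{it} u(n)`, for every fixed `K` the sum of
   `(1 - Re u(p)) / p` over `X^{1/K} < p ≤ X` tends to `0`, the sum over all primes diverges.
3. There is a set `Q` of primes, the sum of the reciprocals of its members up to the `n`-th iterated power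
   of two being `O(n ^ 2)`, such that for every completely multiplicative `g₀` with values `1`, `-1` on the primes and
   almost every choice of signs at `Q` the function which agrees with `g₀` off `Q` and has these changes
   of sign at `Q` has the properties (b) and (c).

Zero entropy: the maps of the definition of the Voiculescu-Brown entropy are only required to be linear
contractions.
-/

set_option autoImplicit false

namespace Pool.Agent.Results.MP_7a8f48_an.ArbitraryCompanions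

open Finset Filter MeasureTheory Pool.Agent.H220M Pool.Agent.Q270.EA Pool.Agent.Q270.EB
open Pool.Agent.Q270.ED
open Pool.Agent.TH573.SM (tower)

/-- the `k × k` matrices with the operator norm -/
def Matr (k : ℕ) : Type := EuclideanSpace ℂ (Fin k) →L[ℂ] EuclideanSpace ℂ (Fin k)

noncomputable instance (k : ℕ) : NormedAddCommGroup (Matr k) :=
  @ContinuousLinearMap.toNormedAddCommGroup ℂ ℂ (EuclideanSpace ℂ (Fin k))
    (EuclideanSpace ℂ (Fin k)) _ _ _ _ _ _ (RingHom.id ℂ) _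

noncomputable instance (k : ℕ) : NormedSpace ℂ (Matr k) :=
  @ContinuousLinearMap.toNormedSpace ℂ ℂ (EuclideanSpace ℂ (Fin k))
    (EuclideanSpace ℂ (Fin k)) _ _ _ _ _ _ (RingHom.id ℂ) _ ℂ _ _ _

/-- the mean over the scales `N ≤ M`, with the weights `1 / N` -/
noncomputable def scaleMean (M : ℕ) (φ : ℕ → ℝ) : ℝ :=
  (∑ N ∈ Icc 1 M, (1 / (N : ℝ)) * φ N) / ∑ N ∈ Icc 1 M, 1 / (N : ℝ)

/-- 1-bounded multiplicative functions -/
def Mul1 (f : ArithmeticFunction ℂ) : Prop := f.IsMultiplicative ∧ ∀ n, ‖f n‖ ≤ 1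

/-- all correlations of `f` and its complex conjugate at distinct shifts vanish at almost all
scales -/
def Self (f : ArithmeticFunction ℂ) : Prop :=
  ∀ (m : ℕ) (c : Fin m → Bool) (h : Fin m → ℤ), 1 ≤ m → Function.Injective h →
    Tendsto (fun M : ℕ => scaleMean M (fun N => ‖(1 / (N : ℂ)) * ∑ n ∈ Icc 1 N, ∏ i, if c i = true then
      starRingEnd ℂ (f ((n : ℤ) + h i).toNat) else f ((n : ℤ) + h i).toNat‖)) atTop (nhds 0)

/-- norm disjointness of `f` and the orbit of `x`, arbitrary multiplicative companions -/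
def Disj {X : Type} [NormedAddCommGroup X] [NormedSpace ℂ X] (f : ArithmeticFunction ℂ) (T : X → X)
    (x : X) : Prop :=
  ∀ (k : ℕ) (h : Fin (k + 1) → ℤ), Function.Injective h → ∀ ε : ℝ, 0 < ε → ∃ M₀ : ℕ, ∀ M : ℕ, M₀ ≤ M →
    ∀ g : Fin k → ArithmeticFunction ℂ, (∀ j, Mul1 (g j)) →
      scaleMean M (fun N => ‖(1 / (N : ℂ)) • ∑ n ∈ Icc 1 N,
        (f ((n : ℤ) + h 0).toNat * ∏ j, g j ((n : ℤ) + h j.succ).toNat) • (T^[n]) x‖) ≤ ε

/-- zero entropy of `α` with respect to `π` -/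
def ZeroGrowth {A B : Type} [NormedAddCommGroup A] [NormedSpace ℂ A] [NormedAddCommGroup B]
    [NormedSpace ℂ B] (π : A → B) (α : A → A) : Prop :=
  ∀ (Ω : Finset A) (δ ε : ℝ), 0 < δ → 0 < ε → ∀ᶠ n : ℕ in atTop, ∃ (k : ℕ) (φ : A →ₗ[ℂ] Matr k)
    (ψ : Matr k →ₗ[ℂ] B), (k : ℝ) ≤ Real.exp (ε * n) ∧ (∀ a, ‖φ a‖ ≤ ‖a‖) ∧ (∀ b, ‖ψ b‖ ≤ ‖b‖) ∧
      ∀ a ∈ Ω, ∀ h < n, ‖ψ (φ ((α^[h]) a)) - π ((α^[h]) a)‖ < δ

/-- the orbit of `x` is slow: only one orbit, infinitely many `n`, and the mean error -/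
def SlowVector {X Y : Type} [NormedAddCommGroup X] [NormedSpace ℂ X] [NormedAddCommGroup Y]
    [NormedSpace ℂ Y] (π : X → Y) (T : X → X) (x : X) : Prop :=
  ∀ ε : ℝ, 0 < ε → ∃ᶠ n : ℕ in atTop, ∃ (k : ℕ) (φ : X →ₗ[ℂ] Matr k) (ψ : Matr k →ₗ[ℂ] Y),
    (k : ℝ) ≤ Real.exp (ε * n) ∧ (∀ a, ‖φ a‖ ≤ ‖a‖) ∧ (∀ b, ‖ψ b‖ ≤ ‖b‖) ∧
      ∑ h ∈ range n, ‖ψ (φ ((T^[h]) x)) - π ((T^[h]) x)‖ ≤ ε * n

/-- all `*`-endomorphisms of zero entropy of all C*-algebras -/
def Algebras (f : ArithmeticFunction ℂ) : Prop :=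
  ∀ (A : Type) [NonUnitalCStarAlgebra A] (B : Type) [NonUnitalCStarAlgebra B]
    (α : A →⋆ₙₐ[ℂ] A) (π : A →⋆ₙₐ[ℂ] B), Function.Injective π → ZeroGrowth π α → ∀ a : A, Disj f α a

/-- all linear contractions and all vectors with slow orbits -/
def Contractions (f : ArithmeticFunction ℂ) : Prop :=
  ∀ (X : Type) [NormedAddCommGroup X] [NormedSpace ℂ X] (Y : Type)
    [NormedAddCommGroup Y] [NormedSpace ℂ Y] (T : X →L[ℂ] X) (π : X →ₗᵢ[ℂ] Y) (x : X),
    ‖T‖ ≤ 1 → SlowVector π T x → Disj f T x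

lemma bm {f : ArithmeticFunction ℂ} (hf : Mul1 f) : BM f :=
  ⟨hf.2, hf.1.map_one, fun _ _ h => hf.1.map_mul_of_coprime h⟩

lemma nonneg (M : ℕ) (φ : ℕ → ℝ) (hφ : ∀ N, 0 ≤ φ N) : 0 ≤ scaleMean M φ := by
  unfold scaleMean
  exact div_nonneg (sum_nonneg fun _ _ => mul_nonneg (by positivity) (hφ _))
    (sum_nonneg fun _ _ => by positivity)

theorem contractions_of (f : ArithmeticFunction ℂ) (hf : Mul1 f) (hE : EllU f) : Contractions f := by
  intro X _ _ Y _ _ T π x hT hx k h hh ε hε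
  have hx' : Slow π T x := by
    intro ε hε
    refine (hx ε hε).mono ?_
    rintro n ⟨k, φ, ψ, hk, hφ, hψ, h1⟩
    exact ⟨k, φ, ψ, hk, hφ, hψ, h1⟩
  obtain ⟨X₀, hX₀⟩ := contr f (bm hf) hE T hT π x hx' k h hh ε hε
  exact ⟨X₀, fun M hM g hg => hX₀ M hM (fun j => g j) fun j => bm (hg j)⟩

theorem algebras_of (f : ArithmeticFunction ℂ) (hc : Contractions f) : Algebras f := by
  intro A _ B _ α π hπ hα a
  obtain ⟨T, hT⟩ : ∃ T : A →L[ℂ] A, ‖T‖ ≤ 1 ∧ ⇑T = ⇑α :=
    ⟨LinearMap.mkContinuous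
      ({ toFun := α, map_add' := map_add α, map_smul' := fun c x => map_smul α c x } : A →ₗ[ℂ] A) 1
      (fun x => by
        rw [one_mul]
        exact NonUnitalStarAlgHom.norm_apply_le α x), LinearMap.mkContinuous_norm_le _ zero_le_one _, rfl⟩
  obtain ⟨p, hp⟩ : ∃ p : A →ₗᵢ[ℂ] B, ⇑p = ⇑π :=
    ⟨{ toFun := π, map_add' := map_add π, map_smul' := fun c x => map_smul π c x,
       norm_map' := fun x => NonUnitalStarAlgHom.norm_map π hπ x }, rfl⟩
  have h1 : SlowVector p T a := by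
    rw [hp, hT.2]
    intro ε hε
    refine (hα {a} ε ε hε hε).frequently.mono ?_
    rintro n ⟨k, φ, ψ, hk, hφ, hψ, h1⟩
    refine ⟨k, φ, ψ, hk, hφ, hψ, ?_⟩
    calc ∑ j ∈ range n, ‖ψ (φ ((α^[j]) a)) - π ((α^[j]) a)‖ ≤ ∑ _j ∈ range n, ε :=
          sum_le_sum fun j hj => (h1 a (mem_singleton_self a) j (mem_range.1 hj)).le
      _ = ε * n := by rw [sum_const, card_range, nsmul_eq_mul, mul_comm]
  have h2 := hc A B T p a hT.1 h1
  rw [hT.2] at h2
  exact h2

/-- the complex numbers as a C*-algebra -/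
lemma one_op : ∃ (φ : ℂ →ₗ[ℂ] Matr 1) (ψ : Matr 1 →ₗ[ℂ] ℂ), (∀ a, ‖φ a‖ ≤ ‖a‖) ∧ (∀ b, ‖ψ b‖ ≤ ‖b‖) ∧
    ∀ z, ψ (φ z) = z := by
  have h0 : ∃ (φ : ℂ →ₗ[ℂ] Pool.Agent.Q163.ND.Mk 1) (ψ : Pool.Agent.Q163.ND.Mk 1 →ₗ[ℂ] ℂ),
      (∀ a, ‖φ a‖ ≤ ‖a‖) ∧ (∀ b, ‖ψ b‖ ≤ ‖b‖) ∧ ∀ z, ψ (φ z) = z := by
    refine ⟨LinearMap.toSpanSingleton ℂ _ 1,
      { toFun := fun S => (S (EuclideanSpace.single 0 1)) 0
        map_add' := fun S S' => rfl
        map_smul' := fun c S => rfl }, fun z => ?_, fun S => ?_, fun z => ?_⟩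
    · rw [LinearMap.toSpanSingleton_apply, norm_smul, norm_one, mul_one]
    · have h1 := S.le_opNorm (EuclideanSpace.single 0 (1 : ℂ))
      rw [PiLp.norm_single, norm_one, mul_one] at h1
      refine le_trans ?_ h1
      exact EuclideanSpace.norm_eq (S (EuclideanSpace.single 0 (1 : ℂ))) ▸ by
        rw [Fin.sum_univ_one, Real.sqrt_sq (norm_nonneg _)]
        exact le_rfl
    · rw [LinearMap.toSpanSingleton_apply]
      show (((z • (1 : Pool.Agent.Q163.ND.Mk 1)) (EuclideanSpace.single 0 1)) : EuclideanSpace ℂ (Fin 1)) 0 = z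
      simp
  exact h0

lemma zero_id : ZeroGrowth (fun z : ℂ => z) (fun z : ℂ => z) := by
  intro Ω δ ε hδ hε
  filter_upwards with n
  obtain ⟨φ, ψ, hφ, hψ, h⟩ := one_op
  refine ⟨1, φ, ψ, ?_, hφ, hψ, fun a _ j _ => ?_⟩
  · rw [Nat.cast_one]
    exact Real.one_le_exp (by positivity)
  · rw [h, sub_self, norm_zero]
    exact hδ

lemma key_of (f : ArithmeticFunction ℂ) (hd : Disj f (fun z : ℂ => z) 1) (k : ℕ) (h : Fin (k + 1) → ℤ)
    (hh : Function.Injective h) (g : Fin k → ArithmeticFunction ℂ) (hg : ∀ j, Mul1 (g j)) :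
    Tendsto (fun M : ℕ => scaleMean M (fun N => ‖(1 / (N : ℂ)) * ∑ n ∈ Icc 1 N,
      f ((n : ℤ) + h 0).toNat * ∏ j, g j ((n : ℤ) + h j.succ).toNat‖)) atTop (nhds 0) := by
  rw [Metric.tendsto_atTop]
  intro ε hε
  obtain ⟨M₀, hM₀⟩ := hd k h hh (ε / 2) (by positivity)
  refine ⟨M₀, fun M hM => ?_⟩
  rw [Real.dist_eq, sub_zero, abs_of_nonneg (nonneg _ _ fun _ => norm_nonneg _)]
  have h1 := hM₀ M hM g hg
  have h2 : ∀ n : ℕ, (fun z : ℂ => z)^[n] 1 = 1 := by
    intro n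
    induction n with
    | zero => rfl
    | succ n ih => rw [Function.iterate_succ_apply', ih]
  simp only [h2, smul_eq_mul, mul_one] at h1
  linarith

/-- the complex conjugate -/
noncomputable def conjA (f : ArithmeticFunction ℂ) : ArithmeticFunction ℂ :=
  ⟨fun n => starRingEnd ℂ (f n), by simp⟩

lemma conjA_apply (f : ArithmeticFunction ℂ) (n : ℕ) : conjA f n = starRingEnd ℂ (f n) := rfl

lemma mul1_conj {f : ArithmeticFunction ℂ} (hf : Mul1 f) : Mul1 (conjA f) := by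
  refine ⟨⟨?_, fun {m n} h => ?_⟩, fun n => ?_⟩
  · rw [conjA_apply, hf.1.map_one, map_one]
  · rw [conjA_apply, conjA_apply, conjA_apply, hf.1.map_mul_of_coprime h, map_mul]
  · rw [conjA_apply, RCLike.norm_conj]
    exact hf.2 n

lemma self_of_disj (f : ArithmeticFunction ℂ) (hf : Mul1 f) (hd : Disj f (fun z : ℂ => z) 1) : Self f := by
  classical
  have key := key_of f hd
  intro m c h hm hh
  obtain ⟨k, rfl⟩ : ∃ k, m = k + 1 := ⟨m - 1, by omega⟩
  by_cases hc : ∃ i, c i = false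
  · obtain ⟨i₀, hi₀⟩ := hc
    obtain ⟨σ, hσ⟩ : ∃ σ : Equiv.Perm (Fin (k + 1)), σ = Equiv.swap 0 i₀ := ⟨_, rfl⟩
    have hσ0 : σ 0 = i₀ := by rw [hσ]; exact Equiv.swap_apply_left _ _
    have h1 := key k (fun j => h (σ j)) (hh.comp σ.injective)
      (fun j => if c (σ j.succ) = true then conjA f else f) (fun j => by
        split_ifs
        · exact mul1_conj hf
        · exact hf)
    refine Tendsto.congr (fun M => ?_) h1
    congr 1
    funext N
    congr 2
    refine sum_congr rfl fun n _ => ?_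
    rw [← Equiv.prod_comp σ, Fin.prod_univ_succ, hσ0, hi₀]
    simp only [Bool.false_eq_true, if_false]
    congr 1
    refine prod_congr rfl fun j _ => ?_
    split_ifs <;> rfl
  · push Not at hc
    have hc' : ∀ i, c i = true := fun i => by simpa using hc i
    have h1 := key k h hh (fun _ => f) (fun _ => hf)
    refine Tendsto.congr (fun M => ?_) h1
    congr 1
    funext N
    have h2 : ∀ n : ℕ, (∏ i, if c i = true then starRingEnd ℂ (f ((n : ℤ) + h i).toNat)
        else f ((n : ℤ) + h i).toNat) = starRingEnd ℂ (f ((n : ℤ) + h 0).toNat *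
          ∏ j : Fin k, f ((n : ℤ) + h j.succ).toNat) := by
      intro n
      rw [← Fin.prod_univ_succ (f := fun i => f ((n : ℤ) + h i).toNat), map_prod]
      exact prod_congr rfl fun i _ => if_pos (hc' i)
    simp only [h2]
    exact (norm_AvN_conj N _).symm

lemma self_of_contractions (f : ArithmeticFunction ℂ) (hf : Mul1 f) (hc : Contractions f) : Self f := by
  refine self_of_disj f hf ?_
  have h1 := hc ℂ ℂ (ContinuousLinearMap.id ℂ ℂ) LinearIsometry.id 1 ContinuousLinearMap.norm_id_le (by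
    have h0 := zero_id
    intro ε hε
    refine (h0 {1} ε ε hε hε).frequently.mono ?_
    rintro n ⟨k, φ, ψ, hk, hφ, hψ, h1⟩
    refine ⟨k, φ, ψ, hk, hφ, hψ, ?_⟩
    calc ∑ j ∈ range n, ‖ψ (φ ((ContinuousLinearMap.id ℂ ℂ)^[j] (1 : ℂ))) -
          LinearIsometry.id ((ContinuousLinearMap.id ℂ ℂ)^[j] (1 : ℂ))‖ ≤ ∑ _j ∈ range n, ε :=
          sum_le_sum fun j hj => (h1 1 (mem_singleton_self 1) j (mem_range.1 hj)).le
      _ = ε * n := by rw [sum_const, card_range, nsmul_eq_mul, mul_comm])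
  exact h1

lemma self_of_algebras (f : ArithmeticFunction ℂ) (hf : Mul1 f) (hc : Algebras f) : Self f := by
  refine self_of_disj f hf ?_
  exact hc ℂ ℂ (NonUnitalStarAlgHom.id ℂ ℂ) (NonUnitalStarAlgHom.id ℂ ℂ) (fun _ _ h => h) zero_id 1

lemma ellU_of_self (f : ArithmeticFunction ℂ) (hf : Mul1 f) (hs : Self f) : EllU f := by
  classical
  intro k hk a ha ε hε
  refine tt_of f (bm hf) k hk (fun t ht => ?_) a ha ε hε
  obtain ⟨e⟩ : Nonempty (Finset (Fin k) ≃ Fin (Fintype.card (Finset (Fin k)))) :=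
    ⟨Fintype.equivFin _⟩
  have h1 := hs (Fintype.card (Finset (Fin k))) (fun i => decide (¬ (e.symm i).card % 2 = 0))
    (fun i => ∑ l ∈ e.symm i, t l) Fintype.card_pos (ht.comp e.symm.injective)
  refine Tendsto.congr (fun X => ?_) h1
  show AS X _ = AS X _
  congr 1
  funext n
  unfold CU
  rw [← Equiv.prod_comp e]
  refine prod_congr rfl fun s _ => ?_
  rw [Equiv.symm_apply_apply]
  unfold cj
  by_cases hs : s.card % 2 = 0
  · simp [hs]
  · simp [hs]

/-- the function with values `1`, `-1` as an arithmetic function -/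
noncomputable def toAF (f : ℕ →*₀ ℤ) : ArithmeticFunction ℂ := ⟨fun n => ((f n : ℤ) : ℂ), by simp⟩

/-- (1), (2) and (3) -/
theorem result :
    (∀ f : ArithmeticFunction ℂ, Mul1 f → (Self f ↔ Algebras f) ∧ (Self f ↔ Contractions f)) ∧
    (∀ f : ArithmeticFunction ℂ, Mul1 f → TameAp (fun n => f n) → Algebras f ∧ Contractions f) ∧
    ∃ Q : Set ℕ, (∀ q ∈ Q, q.Prime) ∧
      (∃ K : ℝ, ∀ n : ℕ, (open Classical in
        ∑ q ∈ (Icc 1 (tower n)).filter (fun q => q ∈ Q), (1 : ℝ) / q) ≤ K * n ^ 2) ∧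
      ∀ g₀ : ℕ →*₀ ℤ, (∀ p : ℕ, p.Prime → g₀ p = 1 ∨ g₀ p = -1) →
      ∀ᵐ ω ∂coins, ∃! f : ℕ →*₀ ℤ, IsModif g₀ Q ω f ∧ Algebras (toAF f) ∧ Contractions (toAF f) := by
  classical
  have hall : ∀ f : ArithmeticFunction ℂ, Mul1 f → EllU f → Algebras f ∧ Contractions f := fun f hf hE =>
    ⟨algebras_of f (contractions_of f hf hE), contractions_of f hf hE⟩
  refine ⟨fun f hf => ⟨⟨fun hs => (hall f hf (ellU_of_self f hf hs)).1, self_of_algebras f hf⟩,
    ⟨fun hs => (hall f hf (ellU_of_self f hf hs)).2, self_of_contractions f hf⟩⟩,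
    fun f hf ht => hall f hf ?_, Pool.Agent.TH573.SM.sparse, fun q hq => hq.1, ?_,
    fun g₀ hg₀ => ?_⟩
  · intro k hk a ha ε hε
    exact t_TT (fun n => f n) (ht.tw (hf.2 0)) k hk a ha ε hε
  · obtain ⟨K, hK⟩ := Pool.Agent.TH573.SM.sparse_sum
    refine ⟨K, fun n => ?_⟩
    refine le_trans (Finset.sum_le_sum_of_subset_of_nonneg ?_ fun q _ _ => by positivity) (hK n)
    intro q hq
    rw [mem_filter, mem_Icc] at hq ⊢
    obtain ⟨h1, hp, i, h2, h3⟩ := hq
    refine ⟨h1, i, ?_, hp, h2, h3⟩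
    by_contra h
    have := Pool.Agent.TH573.SM.tower_strictMono.monotone (not_lt.1 h)
    omega
  · obtain ⟨g', hg'⟩ := exists_unit g₀ hg₀
    filter_upwards [Pool.Agent.TH573.SM.main g₀ hg₀ (fun _ _ => 1) (fun _ _ => by simp)]
      with ω hω
    obtain ⟨f, ⟨hf, h1⟩, hu⟩ := hω
    obtain ⟨f', hf', hfm⟩ := isModif_exists g₀ g' hg' Pool.Agent.TH573.SM.sparse ω
    obtain rfl : f = f' := isModif_unique g₀ _ ω f f' hf hf'
    refine ⟨f, ⟨hf, ?_⟩, fun f' hf' => isModif_unique g₀ _ ω f' f hf'.1 hf⟩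
    have hb : ∀ n, ‖((f n : ℤ) : ℂ)‖ ≤ 1 := by
      intro n
      by_cases hn : n = 0
      · simp [hn]
      · rw [hfm n hn]
        rcases Int.units_eq_one_or (modif g' Pool.Agent.TH573.SM.sparse ω n) with h2 | h2 <;>
          rw [h2] <;> simp
    have hM : Mul1 (toAF f) := by
      refine ⟨⟨?_, fun {m n} _ => ?_⟩, hb⟩
      · show ((f 1 : ℤ) : ℂ) = 1
        simp
      · show ((f (m * n) : ℤ) : ℂ) = ((f m : ℤ) : ℂ) * ((f n : ℤ) : ℂ)
        simp
    refine hall (toAF f) hM fun k hk a ha ε hε => ?_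
    exact tt_of (toAF f) (bm hM) k hk (fun t ht => self_of f (fun F hF => by
        refine (h1 F hF 0 0 1).congr fun x => ?_
        congr 1
        rw [filter_true_of_mem fun n _ => Nat.modEq_one]
        refine sum_congr rfl fun n _ => ?_
        rw [one_mul]) k t ht) a ha ε hε

end Pool.Agent.Results.MP_7a8f48_an.ArbitraryCompanions
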