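import Pool.Agent.Q197.PS.CC

/-! # Möbius disjointness for automorphisms of C*-algebras along random unions of residue classes -/

set_option autoImplicit false

open Finset Filter Topology
open scoped ComplexOrder

namespace Pool.Agent.Results.MP_7a8f48_an.UnionsOfClasses

open Q197.PS

section

variable {U : Type} [NonUnitalCStarAlgebra U]

/-- `ρ` is a state: a positive linear functional of norm one. -/
def IsState (ρ : U →L[ℂ] ℂ) : Prop := (∀ a : U, 0 ≤ ρ (star a * a)) ∧ ‖ρ‖ = 1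

/-- The sum of the `μ(n) ρ(αⁿ u)` over the `1 ≤ n ≤ N` with `n mod P` in `A`, divided by `N`. -/
noncomputable def mean (α : U ≃⋆ₐ[ℂ] U) (ρ : U →L[ℂ] ℂ) (u : U) (P : ℕ) (A : Finset ℕ) (N : ℕ) : ℂ :=
  (∑ n ∈ (Icc 1 N).filter (fun n => n % P ∈ A), ((ArithmeticFunction.moebius n : ℤ) : ℂ) * ρ ((α ^ n) u)) / N

/-- Möbius disjointness along the `n` with `n mod P` in `A`, for all states and all elements. -/
def Along (α : U ≃⋆ₐ[ℂ] U) (P : ℕ) (A : Finset ℕ) : Prop :=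
  ∀ ρ : U →L[ℂ] ℂ, IsState ρ → ∀ u : U, Tendsto (mean α ρ u P A) atTop (𝓝 0)

/-- Möbius disjointness: the conclusion of the question. -/
def Disjoint (α : U ≃⋆ₐ[ℂ] U) : Prop :=
  ∀ ρ : U →L[ℂ] ℂ, IsState ρ → ∀ u : U, Tendsto (fun N : ℕ =>
    (∑ n ∈ Icc 1 N, ((ArithmeticFunction.moebius n : ℤ) : ℂ) * ρ ((α ^ n) u)) / N) atTop (𝓝 0)

open Classical in
/-- The number of the sets `A` of residues modulo `P` with Möbius disjointness along `A`. -/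
noncomputable def count (α : U ≃⋆ₐ[ℂ] U) (P : ℕ) : ℕ := ((range P).powerset.filter (fun A => Along α P A)).card

open Classical in
/-- The number of the sets `A` of residues modulo `P` along which the means of one orbit tend to zero. -/
noncomputable def countAt (α : U ≃⋆ₐ[ℂ] U) (ρ : U →L[ℂ] ℂ) (u : U) (P : ℕ) : ℕ :=
  ((range P).powerset.filter (fun A => Tendsto (mean α ρ u P A) atTop (𝓝 0))).card

/-- the sequence -/
noncomputable def uu (α : U ≃⋆ₐ[ℂ] U) (ρ : U →L[ℂ] ℂ) (u : U) (n : ℕ) : ℂ :=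
  ((ArithmeticFunction.moebius n : ℤ) : ℂ) * ρ ((α ^ n) u)

lemma norm_pow' (α : U ≃⋆ₐ[ℂ] U) (n : ℕ) (u : U) : ‖(α ^ n) u‖ = ‖u‖ := by
  induction n with
  | zero => rw [pow_zero]; rfl
  | succ n ih =>
    rw [pow_succ']
    show ‖α ((α ^ n) u)‖ = ‖u‖
    rw [StarAlgEquiv.norm_map, ih]

lemma uu_le (α : U ≃⋆ₐ[ℂ] U) {ρ : U →L[ℂ] ℂ} (hρ : ‖ρ‖ ≤ 1) (u : U) (n : ℕ) : ‖uu α ρ u n‖ ≤ ‖u‖ := by
  unfold uu
  have h1 : ‖((ArithmeticFunction.moebius n : ℤ) : ℂ)‖ ≤ 1 := by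
    rw [Complex.norm_intCast]
    have := ArithmeticFunction.abs_moebius_le_one (n := n)
    exact_mod_cast this
  have h2 : ‖ρ ((α ^ n) u)‖ ≤ ‖u‖ := by
    refine (ρ.le_opNorm _).trans ?_
    rw [norm_pow']
    calc ‖ρ‖ * ‖u‖ ≤ 1 * ‖u‖ := by gcongr
      _ = ‖u‖ := one_mul _
  rw [norm_mul]
  calc ‖((ArithmeticFunction.moebius n : ℤ) : ℂ)‖ * ‖ρ ((α ^ n) u)‖ ≤ 1 * ‖u‖ := by gcongr
    _ = ‖u‖ := one_mul _

lemma mean_eq (α : U ≃⋆ₐ[ℂ] U) (ρ : U →L[ℂ] ℂ) (u : U) (P : ℕ) (A : Finset ℕ) :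
    mean α ρ u P A = avC (uu α ρ u) P A := rfl

lemma countAt_eq (α : U ≃⋆ₐ[ℂ] U) (ρ : U →L[ℂ] ℂ) (u : U) (P : ℕ) : countAt α ρ u P = nZ (uu α ρ u) P := rfl

lemma count_le (α : U ≃⋆ₐ[ℂ] U) {ρ : U →L[ℂ] ℂ} (hρ : IsState ρ) (u : U) (P : ℕ) :
    count α P ≤ countAt α ρ u P := by
  classical
  unfold count countAt
  refine card_le_card fun A hA => ?_
  rw [mem_filter] at hA ⊢
  exact ⟨hA.1, hA.2 ρ hρ u⟩

/-- **Few unions** -/
theorem few (α : U ≃⋆ₐ[ℂ] U) {ρ : U →L[ℂ] ℂ} (hρ : ‖ρ‖ ≤ 1) {u : U} {K : ℝ} (hK : 0 < K) (hu : ‖u‖ ≤ K) {c : ℝ}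
    (hc : 0 < c) (q : ℕ) (B : Finset ℕ) (hfr : ∃ᶠ N : ℕ in atTop, c ≤ ‖mean α ρ u q B N‖) {P : ℕ} (hP : 0 < P)
    (hd : q ∣ P) : (countAt α ρ u P : ℝ) ≤ 108 * (1 + K / c) * 2 ^ P / √P := by
  have hs : ((K : ℂ))⁻¹ ≠ 0 := inv_ne_zero (by exact_mod_cast hK.ne')
  have h1 := few_C (u := fun n => (K : ℂ)⁻¹ * uu α ρ u n) (fun n _ => by
    rw [norm_mul, norm_inv, Complex.norm_real, Real.norm_of_nonneg hK.le, inv_mul_le_iff₀ hK, mul_one]
    exact (uu_le α hρ u n).trans hu) (c := c / K) (by positivity) q B ?_ hP hd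
  · have h2 : nZ (fun n => (K : ℂ)⁻¹ * uu α ρ u n) P = countAt α ρ u P := by
      classical
      rw [countAt_eq]
      unfold nZ
      congr 1
      ext A
      rw [mem_filter, mem_filter, zero_smul' hs]
    rw [h2, one_div_div] at h1
    exact h1
  · refine hfr.mono fun N hN => ?_
    rw [avC_smul, norm_mul, norm_inv, Complex.norm_real, Real.norm_of_nonneg hK.le, div_eq_inv_mul]
    rw [mean_eq] at hN
    gcongr

lemma along_of_share (α : U ≃⋆ₐ[ℂ] U) (q : ℕ) (B : Finset ℕ)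
    (h : ∀ ρ : U →L[ℂ] ℂ, IsState ρ → ∀ u : U, ∀ K : ℝ, ∃ P : ℕ, 0 < P ∧ q ∣ P ∧ K * 2 ^ P / √P ≤ countAt α ρ u P) :
    Along α q B := by
  intro ρ hρ u
  exact zero_of_many (M := ‖u‖) (fun n _ => uu_le α hρ.2.le u n) B (h ρ hρ u)

lemma one_iff (α : U ≃⋆ₐ[ℂ] U) : Along α 1 {0} ↔ Disjoint α := by
  have h : ∀ (ρ : U →L[ℂ] ℂ) (u : U), mean α ρ u 1 {0} = fun N : ℕ =>
      (∑ n ∈ Icc 1 N, ((ArithmeticFunction.moebius n : ℤ) : ℂ) * ρ ((α ^ n) u)) / N := by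
    intro ρ u
    funext N
    unfold mean
    rw [filter_true_of_mem (fun n _ => by rw [Nat.mod_one]; exact mem_singleton_self 0)]
  unfold Along Disjoint
  simp only [h]

lemma share_of_all (α : U ≃⋆ₐ[ℂ] U) (h : ∀ P : ℕ, 0 < P → ∀ A ⊆ range P, Along α P A) {q : ℕ} (hq : 0 < q) (K : ℝ) :
    ∃ P : ℕ, 0 < P ∧ q ∣ P ∧ K * 2 ^ P / √P ≤ count α P := by
  classical
  obtain ⟨P, hP, hd, h1⟩ := sqrt_large q hq K
  refine ⟨P, hP, hd, h1.trans (le_of_eq ?_)⟩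
  unfold count
  rw [filter_true_of_mem (fun A hA => h _ hP A (mem_powerset.1 hA)), card_powerset, card_range]
  push_cast
  rfl

/-- The product of the automorphism with the rotation of `ℤ/q`, on the functions from `ℤ/q` to `U`. -/
def rot (α : U ≃⋆ₐ[ℂ] U) (q : ℕ) [NeZero q] : (ZMod q → U) ≃⋆ₐ[ℂ] (ZMod q → U) where
  toFun v := fun j => α (v (j + 1))
  invFun v := fun j => α.symm (v (j - 1))
  left_inv v := by
    funext j
    simp
  right_inv v := by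
    funext j
    simp
  map_mul' v w := by
    funext j
    simp
  map_add' v w := by
    funext j
    simp
  map_star' v := by
    funext j
    simp [map_star]
  map_smul' c v := by
    funext j
    simp

lemma rot_pow (α : U ≃⋆ₐ[ℂ] U) (q : ℕ) [NeZero q] (n : ℕ) (v : ZMod q → U) (j : ZMod q) :
    ((rot α q) ^ n) v j = (α ^ n) (v (j + n)) := by
  induction n generalizing v j with
  | zero => simp
  | succ n ih =>
    rw [pow_succ, pow_succ]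
    show ((rot α q) ^ n) ((rot α q) v) j = (α ^ n) (α (v (j + ((n + 1 : ℕ) : ZMod q))))
    rw [ih]
    show (α ^ n) (α (v (j + n + 1))) = _
    congr 3
    push_cast
    ring

lemma state_proj {ρ : U →L[ℂ] ℂ} (hρ : IsState ρ) (q : ℕ) [NeZero q] :
    IsState (ρ.comp (ContinuousLinearMap.proj (R := ℂ) (φ := fun _ : ZMod q => U) 0)) := by
  classical
  refine ⟨fun a => hρ.1 (a 0), le_antisymm ?_ ?_⟩
  · refine ContinuousLinearMap.opNorm_le_bound _ zero_le_one fun v => ?_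
    show ‖ρ (v 0)‖ ≤ 1 * ‖v‖
    refine (ρ.le_opNorm _).trans ?_
    rw [hρ.2]
    gcongr
    exact norm_le_pi_norm v 0
  · rw [← hρ.2]
    refine ContinuousLinearMap.opNorm_le_bound _ (norm_nonneg _) fun u => ?_
    have h1 := (ρ.comp (ContinuousLinearMap.proj (R := ℂ) (φ := fun _ : ZMod q => U) 0)).le_opNorm
      (Pi.single 0 u)
    rw [Pi.norm_single] at h1
    have h2 : (ρ.comp (ContinuousLinearMap.proj (R := ℂ) (φ := fun _ : ZMod q => U) 0)) (Pi.single 0 u) = ρ u := by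
      show ρ ((Pi.single 0 u : ZMod q → U) 0) = ρ u
      rw [Pi.single_eq_same]
    rw [h2] at h1
    exact h1

/-- disjointness of the products with finite rotations gives all residue classes -/
lemma along_of_rot (α : U ≃⋆ₐ[ℂ] U) (q : ℕ) [NeZero q] (h : Disjoint (rot α q)) (A : Finset ℕ) : Along α q A := by
  classical
  intro ρ hρ u
  have h1 := h _ (state_proj hρ q) (fun j => if j.val ∈ A then u else 0)
  refine h1.congr fun N => ?_
  unfold mean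
  congr 1
  rw [sum_filter]
  refine sum_congr rfl fun n _ => ?_
  have h2 : (ρ.comp (ContinuousLinearMap.proj (R := ℂ) (φ := fun _ : ZMod q => U) 0))
      (((rot α q) ^ n) (fun j => if j.val ∈ A then u else 0)) = if n % q ∈ A then ρ ((α ^ n) u) else 0 := by
    show ρ (((rot α q) ^ n) (fun j => if j.val ∈ A then u else 0) 0) = _
    rw [rot_pow, zero_add, ZMod.val_natCast]
    split_ifs
    · rfl
    · simp
  rw [h2]
  split_ifs
  · rfl
  · rw [mul_zero]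

end

/-- A class of automorphisms closed under the products with the rotations of the groups `ℤ/q`. -/
def Closed (𝒞 : ∀ (U : Type) [NonUnitalCStarAlgebra U], (U ≃⋆ₐ[ℂ] U) → Prop) : Prop :=
  ∀ (U : Type) [NonUnitalCStarAlgebra U] (α : U ≃⋆ₐ[ℂ] U) (q : ℕ) [NeZero q], 𝒞 U α → 𝒞 (ZMod q → U) (rot α q)

theorem result :
    -- a failure for one orbit leaves few good unions
    (∀ (U : Type) [NonUnitalCStarAlgebra U] (α : U ≃⋆ₐ[ℂ] U) (ρ : U →L[ℂ] ℂ), ‖ρ‖ ≤ 1 → ∀ (u : U) (K c : ℝ), 0 < K →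
      ‖u‖ ≤ K → 0 < c → ∀ (q : ℕ) (B : Finset ℕ), (∃ᶠ N : ℕ in atTop, c ≤ ‖mean α ρ u q B N‖) →
      ∀ P : ℕ, 0 < P → q ∣ P → (countAt α ρ u P : ℝ) ≤ 108 * (1 + K / c) * 2 ^ P / √P) ∧
    -- one automorphism
    (∀ (U : Type) [NonUnitalCStarAlgebra U] (α : U ≃⋆ₐ[ℂ] U),
      ((∀ P : ℕ, 0 < P → ∀ A ⊆ range P, Along α P A) ↔
        ∀ q : ℕ, 0 < q → ∀ K : ℝ, ∃ P : ℕ, 0 < P ∧ q ∣ P ∧ K * 2 ^ P / √P ≤ count α P) ∧
      ((∀ P : ℕ, 0 < P → ∀ A ⊆ range P, Along α P A) ↔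
        ∀ ρ : U →L[ℂ] ℂ, IsState ρ → ∀ u : U, ∀ q : ℕ, 0 < q → ∀ K : ℝ, ∃ P : ℕ, 0 < P ∧ q ∣ P ∧
          K * 2 ^ P / √P ≤ countAt α ρ u P) ∧
      ((∀ q : ℕ, ∀ [NeZero q], Disjoint (rot α q)) → ∀ P : ℕ, 0 < P → ∀ A ⊆ range P, Along α P A)) ∧
    -- classes of automorphisms
    (∀ (𝒞 : ∀ (U : Type) [NonUnitalCStarAlgebra U], (U ≃⋆ₐ[ℂ] U) → Prop), Closed 𝒞 →
      ((∀ (U : Type) [NonUnitalCStarAlgebra U] (α : U ≃⋆ₐ[ℂ] U), 𝒞 U α → Disjoint α) ↔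
        ∀ (U : Type) [NonUnitalCStarAlgebra U] (α : U ≃⋆ₐ[ℂ] U), 𝒞 U α → ∀ ρ : U →L[ℂ] ℂ, IsState ρ → ∀ u : U,
          ∀ K : ℝ, ∃ P : ℕ, 0 < P ∧ K * 2 ^ P / √P ≤ countAt α ρ u P)) := by
  have hall : ∀ (U : Type) [NonUnitalCStarAlgebra U] (α : U ≃⋆ₐ[ℂ] U),
      (∀ q : ℕ, ∀ [NeZero q], Disjoint (rot α q)) → ∀ P : ℕ, 0 < P → ∀ A ⊆ range P, Along α P A := by
    intro U _ α h P hP A _
    have : NeZero P := ⟨hP.ne'⟩
    exact along_of_rot α P (h P) A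
  refine ⟨?_, ?_, ?_⟩
  · intro U _ α ρ hρ u K c hK hu hc q B hfr P hP hd
    exact few α hρ hK hu hc q B hfr hP hd
  · intro U _ α
    refine ⟨⟨fun h q hq K => share_of_all α h hq K, fun h P hP A _ => ?_⟩, ⟨fun h ρ hρ u q hq K => ?_,
      fun h P hP A _ => ?_⟩, hall U α⟩
    · refine along_of_share α P A fun ρ hρ u K => ?_
      obtain ⟨Q, hQ, hd, h1⟩ := h P hP K
      exact ⟨Q, hQ, hd, h1.trans (by exact_mod_cast count_le α hρ u Q)⟩
    · obtain ⟨Q, hQ, hd, h1⟩ := share_of_all α h hq K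
      exact ⟨Q, hQ, hd, h1.trans (by exact_mod_cast count_le α hρ u Q)⟩
    · exact along_of_share α P A fun ρ hρ u K => h ρ hρ u P hP K
  · intro 𝒞 hC
    constructor
    · intro h U _ α hα ρ hρ u K
      obtain ⟨Q, hQ, -, h1⟩ := share_of_all α (hall U α fun q _ => h _ _ (hC U α q hα)) one_pos K
      exact ⟨Q, hQ, h1.trans (by exact_mod_cast count_le α hρ u Q)⟩
    · intro h U _ α hα
      rw [← one_iff]
      refine along_of_share α 1 {0} fun ρ hρ u K => ?_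
      obtain ⟨P, hP, h1⟩ := h U α hα ρ hρ u K
      exact ⟨P, hP, one_dvd _, h1⟩

end Pool.Agent.Results.MP_7a8f48_an.UnionsOfClasses
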