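import Pool.Agent.Q92.Wick.Rel

/-!
# Möbius disjointness of quasi-free endomorphisms of Wick algebras

The generators `s ξ` of the C*-algebra satisfy relations which allow normal ordering, for example
the `q`-commutation relations `s(η)* s(ξ) = ⟨η, ξ⟩ 1 + q s(ξ) s(η)*`, `-1 < q < 1`.
-/

set_option autoImplicit false

open Filter Topology Finset
open scoped ComplexOrder

namespace Pool.Agent.Results.MP_7a8f48_an.WickAlgebras

/-- The Möbius sum `∑_{n ≤ N} μ(n) zⁿ fⁿ(x)` of the orbit of `x`, twisted by the powers of `z`. -/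
noncomputable def moebiusSum {A : Type} [CStarAlgebra A] (f : A → A) (x : A) (N : ℕ) (z : ℂ) : A :=
  ∑ n ∈ Icc 1 N, (((ArithmeticFunction.moebius n : ℤ) : ℂ) * z ^ n) • f^[n] x

/-- The Möbius sums of `x` are `o(N)` in norm, uniformly over all rotations; and the Möbius averages
of the values of each bounded functional (for example a state) along the orbit tend to zero. -/
def Disj {A : Type} [CStarAlgebra A] (f : A → A) (x : A) : Prop :=
  (∀ ε : ℝ, 0 < ε → ∃ N₀ : ℕ, ∀ N ≥ N₀, ∀ z : ℂ, ‖z‖ = 1 → ‖moebiusSum f x N z‖ ≤ ε * N) ∧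
  ∀ ρ : A →L[ℂ] ℂ, Tendsto (fun N : ℕ => (1 / (N : ℂ)) * ∑ n ∈ Icc 1 N,
      ((ArithmeticFunction.moebius n : ℤ) : ℂ) * ρ (f^[n] x)) atTop (𝓝 0)

section

variable {A H : Type} [CStarAlgebra A] [NormedAddCommGroup H] [InnerProductSpace ℂ H]

/-- the Wick ordered words `s(ξ₁) ⋯ s(ξ_k) (s(η₁) ⋯ s(η_l))*` -/
def wickWords (s : H →ₗ[ℂ] A) : Set A :=
  {x | ∃ p q : List H, x = (p.map s).prod * star ((q.map s).prod)}

/-- the norms of the rows `(s(e₁), …, s(e_d))`, for orthonormal `e₁, …, e_d`, are bounded -/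
def RowBounded (s : H →ₗ[ℂ] A) : Prop :=
  ∃ C : ℝ, ∀ (d : ℕ) (e : Fin d → H), Orthonormal ℂ e → ‖∑ i, s (e i) * star (s (e i))‖ ≤ C

/-- **Wick relations** `s(e_i)* s(e_j) = δ_ij 1 + ∑ T_{(i,l),(j,k)} s(e_l) s(e_k)*` with a hermitian
matrix `T ≤ t`, for orthonormal families `e₁, …, e_d` whose spans contain any given finite set of
vectors. -/
def WickRelations (s : H →ₗ[ℂ] A) (t : ℝ) : Prop :=
  ∀ (N : ℕ) (x : Fin N → H), ∃ (d : ℕ) (e : Fin d → H)
    (T : Matrix (Fin d × Fin d) (Fin d × Fin d) ℂ),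
    Orthonormal ℂ e ∧ (∀ n, x n ∈ Submodule.span ℂ (Set.range e)) ∧
    ((t : ℂ) • (1 : Matrix (Fin d × Fin d) (Fin d × Fin d) ℂ) - T).PosSemidef ∧
    ∀ i j, star (s (e i)) * s (e j) =
      (if i = j then 1 else 0) + ∑ k, ∑ l, T (i, l) (j, k) • (s (e l) * star (s (e k)))

/-- the `q`-commutation relations `s(η)* s(ξ) = ⟨η, ξ⟩ 1 + q s(ξ) s(η)*` -/
def QRelations (s : H →ₗ[ℂ] A) (q : ℝ) : Prop :=
  ∀ η ξ : H, star (s η) * s ξ = (inner ℂ η ξ : ℂ) • (1 : A) + q • (s ξ * star (s η))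

end

open Pool.Agent.Q92.Wick Pool.Agent.TH254.FP

theorem disj_of_ud {A : Type} [CStarAlgebra A] {f : A → A} {x : A} (h : UD f x) : Disj f x :=
  ⟨h, fun ρ => ud_functional h ρ⟩

/-- **Möbius disjointness of quasi-free endomorphisms of Wick algebras.**

Let `A` be a unital C*-algebra, `H` a complex inner product space of any dimension, `s : H → A`
linear, `V` a linear isometry of `H` and `α` a unital `*`-endomorphism of `A` with `α(s ξ) = s(V ξ)`.

(1) If the rows `(s(e₁), …, s(e_d))` are bounded, then `α` is Möbius disjoint, in norm and uniformly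
over all rotations, on the closed span of the Wick ordered words.

(2) If the Wick relations hold with `T ≤ t < 1` and `s(H)` generates `A`, then the rows are bounded and
`α` is Möbius disjoint on all of `A`; and so is each system `(B, β)` which is generated by an
equivariant image of `A` and eigenvectors of `β`, and each system `(W, γ)` which embeds in such a
`(B, β)` (for example the restriction of `α` to the C*-algebra generated by the `s ξ + (s ξ)*` with
`ξ` in a `V`-invariant real subspace).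

(3) The `q`-commutation relations with `-1 < q < 1` are Wick relations with `T ≤ |q|`. -/
theorem result (A H : Type) [CStarAlgebra A] [NormedAddCommGroup H] [InnerProductSpace ℂ H]
    (s : H →ₗ[ℂ] A) (V : H →ₗᵢ[ℂ] H) (α : A →⋆ₐ[ℂ] A) (hα : ∀ ξ, α (s ξ) = s (V ξ)) :
    (RowBounded s → ∀ x ∈ (Submodule.span ℂ (wickWords s)).topologicalClosure, Disj α x) ∧
    (∀ t : ℝ, 0 ≤ t → t < 1 → WickRelations s t →
      (StarAlgebra.adjoin ℂ (Set.range s)).topologicalClosure = ⊤ →
      RowBounded s ∧ (∀ x, Disj α x) ∧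
      ∀ (B : Type) [CStarAlgebra B] (β : B →⋆ₐ[ℂ] B) (g : A →⋆ₐ[ℂ] B), (∀ a, β (g a) = g (α a)) →
        (Submodule.span ℂ {x : B | ∃ a w, ∃ c : ℂ, ‖c‖ = 1 ∧ β w = c • w ∧
          x = g a * w}).topologicalClosure = ⊤ →
        ∀ (W : Type) [CStarAlgebra W] (γ : W →⋆ₐ[ℂ] W) (κ : W →⋆ₐ[ℂ] B), Function.Injective κ →
          (∀ w, κ (γ w) = β (κ w)) → ∀ u, Disj γ u) ∧
    (∀ q : ℝ, QRelations s q → WickRelations s |q|) := by
  have hV : ∀ η ξ, (inner ℂ (V η) (V ξ) : ℂ) = inner ℂ η ξ := fun η ξ => V.inner_map_map η ξ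
  have h1 : RowBounded s → ∀ x ∈ (Submodule.span ℂ (wickWords s)).topologicalClosure,
      UD α x := by
    rintro ⟨C, hC⟩
    refine UD.closed (f := α) (fun x => NonUnitalStarAlgHom.norm_apply_le α x) ?_
    rintro x ⟨p, q, rfl⟩
    refine ud_cword (C := max C 1) (lt_of_lt_of_le one_pos (le_max_right _ _))
      (fun d e he => (hC d e he).trans (le_max_left _ _)) α V hV hα (p, q)
  refine ⟨fun h x hx => disj_of_ud (h1 h x hx), fun t ht0 ht hW hgen => ?_,
    fun q hq => wickRel_of_q hq⟩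
  have hW' : WickRel s t := hW
  have hrow : RowBounded s := ⟨_, hW'.rowBdd ht0 ht⟩
  have hall : ∀ x, UD α x := by
    intro x
    refine h1 hrow x ?_
    have hx : x ∈ (StarAlgebra.adjoin ℂ (Set.range s)).topologicalClosure := by rw [hgen]; trivial
    have hsub : ∀ z ∈ StarAlgebra.adjoin ℂ (Set.range s), z ∈ Submodule.span ℂ (wickWords s) := by
      intro z hz
      have := adjoin_le hW' z hz
      refine Submodule.span_mono ?_ this
      rintro _ ⟨p, rfl⟩
      exact ⟨p.1, p.2, rfl⟩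
    exact closure_mono (s := ((StarAlgebra.adjoin ℂ (Set.range s) : StarSubalgebra ℂ A) : Set A))
      hsub hx
  refine ⟨hrow, fun x => disj_of_ud (hall x), ?_⟩
  intro B _ β g hg hB W _ γ κ hκ hγ u
  exact disj_of_ud (ud_embed hκ hγ (ud_ext hg hB hall (κ u)))

end Pool.Agent.Results.MP_7a8f48_an.WickAlgebras
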